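import Pool.Agent.H46.SK.Targets

/-! Module FU of the board po_modules: the sum over `n` for fixed `u`. -/

namespace Pool.Agent.H46.SK

open _root_.SK Finset Filter

lemma eps_abs_le (k : ℕ) (x : ZMod k) : |eps k x| ≤ 1 := by
  unfold eps
  split_ifs <;> simp

lemma mem_odds {k n : ℕ} (h : n ∈ odds k) : 0 < n ∧ n < k := by
  unfold odds at h
  rw [Finset.mem_filter, Finset.mem_range] at h
  omega

lemma cast_ne_zero_of_odds {k n : ℕ} (h : n ∈ odds k) : (n : ZMod k) ≠ 0 := by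
  obtain ⟨h1, h2⟩ := mem_odds h
  intro h0
  rw [ZMod.natCast_eq_zero_iff] at h0
  exact absurd (Nat.le_of_dvd h1 h0) (by omega)

lemma sum_inv_odds_le (k : ℕ) (s : Finset ℕ) (hs : s ⊆ odds k) :
    ∑ m ∈ s, (1 : ℝ) / m ≤ 1 + Real.log k := by
  have h1 : ∑ m ∈ s, (1 : ℝ) / m ≤ ∑ m ∈ Finset.Icc 1 k, (1 : ℝ) / m := by
    apply Finset.sum_le_sum_of_subset_of_nonneg
    · intro m hm
      have := mem_odds (hs hm)
      simp
      omega
    · intro i _ _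
      positivity
  have h2 : ∑ m ∈ Finset.Icc 1 k, (1 : ℝ) / m = ((harmonic k : ℚ) : ℝ) := by
    rw [harmonic_eq_sum_Icc]
    push_cast
    simp
  rw [h2] at h1
  exact h1.trans (harmonic_le_one_add_log k)

/-- Growth conditions on `R`. -/
lemma exists_R (R₀ : ℕ) (c : ℝ) (hc : 0 < c) : ∃ R₁ : ℕ, R₀ ≤ R₁ ∧ 8 ≤ R₁ ∧ ∀ R : ℕ, R₁ ≤ R →
    800 * ((R : ℝ) + 2) ^ 52 ≤ Real.exp (R / 8) ∧ 200 * (Real.log (R + 1)) ^ 2 ≤ R ∧
    2 ≤ c * Real.log R := by
  have e1 : ∀ᶠ x : ℝ in atTop, 800 * (x + 2) ^ 52 ≤ Real.exp (x / 8) := by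
    have h := (Real.tendsto_pow_mul_exp_neg_atTop_nhds_zero 52)
    have h1 : Tendsto (fun x : ℝ => (x + 2) / 8) atTop atTop := by
      apply Filter.Tendsto.atTop_div_const (by norm_num)
      exact tendsto_atTop_add_const_right _ _ tendsto_id
    have h2 := h.comp h1
    have h3 : ∀ᶠ x : ℝ in atTop, ((x + 2) / 8) ^ 52 * Real.exp (-((x + 2) / 8)) <
        1 / (800 * 8 ^ 52 * Real.exp (1 / 4)) := by
      have : (0 : ℝ) < 1 / (800 * 8 ^ 52 * Real.exp (1 / 4)) := by positivity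
      exact (tendsto_order.1 h2).2 _ this
    filter_upwards [h3] with x hx
    have h4 : Real.exp (-((x + 2) / 8)) = Real.exp (-(x / 8)) * Real.exp (-(1 / 4)) := by
      rw [← Real.exp_add]; congr 1; ring
    rw [h4, div_pow] at hx
    rw [lt_div_iff₀ (by positivity)] at hx
    have h5 : Real.exp (-(1 / 4 : ℝ)) * Real.exp (1 / 4) = 1 := by
      rw [← Real.exp_add]; norm_num
    have h6 : Real.exp (-(x / 8)) * Real.exp (x / 8) = 1 := by
      rw [← Real.exp_add]; simp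
    have h7 : (x + 2) ^ 52 / 8 ^ 52 * (Real.exp (-(x / 8)) * Real.exp (-(1 / 4))) *
        (800 * 8 ^ 52 * Real.exp (1 / 4)) = 800 * (x + 2) ^ 52 * Real.exp (-(x / 8)) *
          (Real.exp (-(1 / 4 : ℝ)) * Real.exp (1 / 4)) := by
      field_simp
    rw [h7, h5, mul_one] at hx
    have h8 : 800 * (x + 2) ^ 52 = 800 * (x + 2) ^ 52 * Real.exp (-(x / 8)) * Real.exp (x / 8) := by
      rw [mul_assoc _ (Real.exp (-(x / 8))), h6, mul_one]
    rw [h8]
    have h9 : 0 < Real.exp (x / 8) := Real.exp_pos _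
    nlinarith
  have e2 : ∀ᶠ x : ℝ in atTop, 200 * (Real.log (x + 1)) ^ 2 ≤ x := by
    have h := (isLittleO_log_rpow_atTop (r := 1 / 4) (by norm_num)).bound
      (show (0 : ℝ) < 1 / 100 by norm_num)
    have h1 : Tendsto (fun x : ℝ => x + 1) atTop atTop :=
      tendsto_atTop_add_const_right _ _ tendsto_id
    have h2 := h1.eventually h
    filter_upwards [h2, eventually_ge_atTop 1] with x hx hx1
    have hp : (0 : ℝ) < x + 1 := by linarith
    rw [Real.norm_of_nonneg (Real.log_nonneg (by linarith)),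
      Real.norm_of_nonneg (Real.rpow_nonneg hp.le _)] at hx
    have h3 : (Real.log (x + 1)) ^ 2 ≤ (1 / 100 * (x + 1) ^ (1 / 4 : ℝ)) ^ 2 :=
      pow_le_pow_left₀ (Real.log_nonneg (by linarith)) hx 2
    have h4 : ((x + 1) ^ (1 / 4 : ℝ)) ^ 2 = (x + 1) ^ (1 / 2 : ℝ) := by
      rw [← Real.rpow_natCast, ← Real.rpow_mul hp.le]; norm_num
    have h5 : (x + 1) ^ (1 / 2 : ℝ) ≤ (x + 1) ^ (1 : ℝ) :=
      Real.rpow_le_rpow_of_exponent_le (by linarith) (by norm_num)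
    rw [Real.rpow_one] at h5
    rw [mul_pow, h4] at h3
    nlinarith
  have e3 : ∀ᶠ x : ℝ in atTop, 2 ≤ c * Real.log x := by
    have h := Real.tendsto_log_atTop.const_mul_atTop hc
    exact h.eventually_ge_atTop 2
  have e : ∀ᶠ R : ℕ in atTop, (800 * ((R : ℝ) + 2) ^ 52 ≤ Real.exp (R / 8) ∧
      200 * (Real.log (R + 1)) ^ 2 ≤ R ∧ 2 ≤ c * Real.log R) := by
    have := tendsto_natCast_atTop_atTop (R := ℝ)
    exact (this.eventually e1).and ((this.eventually e2).and (this.eventually e3))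
  obtain ⟨R₂, hR₂⟩ := eventually_atTop.1 e
  refine ⟨max R₂ (max R₀ 8), by simp, by simp, fun R hR => hR₂ R ?_⟩
  exact (le_max_left _ _).trans hR

lemma aux1 {R : ℝ} (h : 8 ≤ R) : R + 1 ≤ R ^ 2 := by nlinarith

lemma aux2 {l R x : ℝ} (h1 : l ^ 2 ≤ (10 * x) ^ 2) (h2 : 200 * x ^ 2 ≤ R) : 2 * l ^ 2 ≤ R := by
  nlinarith

lemma aux3 {L R y : ℝ} (hL : 0 < L) (h : 2 * y ≤ R) : 2 * L * y ≤ L * R := by nlinarith

lemma aux4 {R L : ℝ} (h : R ^ 10 ≤ L) : R * (8 * R ^ 9) ≤ L * 8 := by nlinarith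

lemma aux5 {L c x y : ℝ} (hL : 0 < L) (h : y ≤ 400 * x ^ 2) :
    16 * L * (c ^ 2 * y) ≤ 6400 * L * (c * x) ^ 2 := by
  have h5 : 0 ≤ L * c ^ 2 := by positivity
  nlinarith [mul_le_mul_of_nonneg_left h h5]

lemma aux6 {a b D : ℝ} (ha : 0 ≤ a) (hb : b ≤ 1) (h : a ≤ D) : a * b ≤ D := by nlinarith

lemma aux7 {a b : ℝ} (ha : |a| ≤ 1) (hb : |b| ≤ 1) : |a| * |b| ≤ 1 := by
  nlinarith [abs_nonneg a, abs_nonneg b]

lemma aux8 {R L y : ℝ} (h : 2 * y ≤ R) (hR : R ≤ L) (hy : 0 ≤ y) : 1 * y ≤ L := by nlinarith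

lemma aux9 {k : ℝ} (hk : 0 < k) : 2 * k ≤ k * Real.pi := by
  nlinarith [Real.pi_gt_three]

lemma aux10 {k D X : ℝ} (hk : 0 < k) (hD : 1 ≤ D) :
    k + k * (X * D) ≤ k * ((X + 7) * D) := by nlinarith

theorem pf_FU (hWGT : TARGET_WGT) (hRAM : TARGET_RAM) (hEXC : TARGET_EXC) (hLAM : TARGET_LAM)
    (hKARS : TARGET_KARS) : TARGET_FU := by
  obtain ⟨R₀, c, hc, hLam⟩ := hLAM
  obtain ⟨R₁, hR₁0, hR₁8, hR₁⟩ := exists_R R₀ c hc
  refine ⟨12800 / c ^ 2 + 10, Nat.ceil (Real.exp ((R₁ : ℝ) ^ 10)) + 3, by positivity, ?_⟩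
  intro k hkf hK N u hu
  have hkp : k.Prime := hkf.out
  have hk3 : 3 ≤ k := by omega
  have hk2 : k ≠ 2 := by omega
  set L := Real.log k with hL
  have hkpos : (0 : ℝ) < k := by exact_mod_cast hkp.pos
  have hLbig : (R₁ : ℝ) ^ 10 ≤ L := by
    rw [hL, Real.le_log_iff_exp_le hkpos]
    have hK' : Nat.ceil (Real.exp ((R₁ : ℝ) ^ 10)) ≤ k := by omega
    exact (Nat.le_ceil _).trans (Nat.cast_le.2 hK')
  have hR₁1 : (8 : ℝ) ≤ R₁ := by exact_mod_cast hR₁8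
  have hL1 : (8 : ℝ) ≤ L := by
    have : (R₁ : ℝ) ≤ (R₁ : ℝ) ^ 10 := le_self_pow₀ (by linarith) (by norm_num)
    linarith
  have hL0 : (0 : ℝ) < L := by linarith
  -- the parameter R
  set R : ℕ := Nat.floor (L ^ (1 / 10 : ℝ)) with hRdef
  have hx0 : 0 ≤ L ^ (1 / 10 : ℝ) := Real.rpow_nonneg hL0.le _
  have hx10 : (L ^ (1 / 10 : ℝ)) ^ 10 = L := by
    rw [← Real.rpow_natCast, ← Real.rpow_mul hL0.le]; norm_num
  have hRle : (R : ℝ) ≤ L ^ (1 / 10 : ℝ) := Nat.floor_le hx0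
  have hRlt : L ^ (1 / 10 : ℝ) < R + 1 := Nat.lt_floor_add_one _
  have hR10 : (R : ℝ) ^ 10 ≤ L := by
    calc (R : ℝ) ^ 10 ≤ (L ^ (1 / 10 : ℝ)) ^ 10 := pow_le_pow_left₀ (by positivity) hRle 10
      _ = L := hx10
  have hLR : L < ((R : ℝ) + 1) ^ 10 := by
    calc L = (L ^ (1 / 10 : ℝ)) ^ 10 := hx10.symm
      _ < ((R : ℝ) + 1) ^ 10 := pow_lt_pow_left₀ hRlt hx0 (by norm_num)
  have hRR₁ : R₁ ≤ R := by
    apply Nat.le_floor
    have h1 : ((R₁ : ℝ) ^ 10) ^ (1 / 10 : ℝ) ≤ L ^ (1 / 10 : ℝ) :=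
      Real.rpow_le_rpow (by positivity) hLbig (by norm_num)
    have h2 : ((R₁ : ℝ) ^ 10) ^ (1 / 10 : ℝ) = R₁ := by
      rw [← Real.rpow_natCast, ← Real.rpow_mul (by positivity)]; norm_num
    rwa [h2] at h1
  obtain ⟨g1, g2, g3⟩ := hR₁ R hRR₁
  have hR8 : 8 ≤ R := hR₁8.trans hRR₁
  have hR8' : (8 : ℝ) ≤ R := by exact_mod_cast hR8
  have hRpos : (0 : ℝ) < R := by linarith
  obtain ⟨hΛ1, hΛ2, hdisj, hprop, hsq⟩ := hLam k R hkp (hR₁0.trans hRR₁) hR10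
  -- loglog
  set ℓ := Real.log L with hℓ
  have hℓpos : 0 < ℓ := Real.log_pos (by linarith)
  have hℓle : ℓ ≤ 10 * Real.log (R + 1) := by
    have : ℓ ≤ Real.log (((R : ℝ) + 1) ^ 10) := Real.log_le_log hL0 hLR.le
    rw [Real.log_pow] at this
    exact_mod_cast this
  have hlogR : Real.log ((R : ℝ) + 1) ≤ 2 * Real.log R := by
    have : Real.log ((R : ℝ) + 1) ≤ Real.log ((R : ℝ) ^ 2) :=
      Real.log_le_log (by positivity) (aux1 hR8')
    rw [Real.log_pow] at this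
    exact_mod_cast this
  have hlogRpos : 0 < Real.log R := Real.log_pos (by linarith)
  have hℓR : ℓ ≤ 20 * Real.log R := by linarith
  have hℓsq : 2 * ℓ ^ 2 ≤ R := by
    exact aux2 (pow_le_pow_left₀ hℓpos.le hℓle 2) g2
  have hRL : (R : ℝ) ≤ L := by
    have : (R : ℝ) ≤ (R : ℝ) ^ 10 := le_self_pow₀ (by linarith) (by norm_num)
    linarith
  set D := L / ℓ ^ 2 with hD
  have hℓ2 : 0 < ℓ ^ 2 := by positivity
  have hDpos : 0 < D := by positivity
  have hDl : D * ℓ ^ 2 = L := by rw [hD]; field_simp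
  -- `1 ≤ D` and more
  have hD2 : 2 * L / R ≤ D := by
    rw [hD, div_le_div_iff₀ hRpos hℓ2]
    exact aux3 hL0 hℓsq
  -- the parameter z
  set z : ℕ := Nat.floor (Real.exp (L / (R : ℝ) ^ 2)) with hz
  have hexp1 : (2 : ℝ) ≤ Real.exp (L / (R : ℝ) ^ 2) := by
    have h1 : (1 : ℝ) ≤ L / (R : ℝ) ^ 2 := by
      rw [le_div_iff₀ (by positivity)]
      have : (R : ℝ) ^ 2 ≤ (R : ℝ) ^ 10 := pow_le_pow_right₀ (by linarith) (by norm_num)
      linarith
    have h2 := Real.add_one_le_exp (L / (R : ℝ) ^ 2)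
    linarith
  have hz2 : 2 ≤ z := Nat.le_floor (by exact_mod_cast hexp1)
  have hlogz : Real.log z ≤ L / (R : ℝ) ^ 2 := by
    have h1 : (z : ℝ) ≤ Real.exp (L / (R : ℝ) ^ 2) := Nat.floor_le (Real.exp_pos _).le
    have h2 : (0 : ℝ) < z := by exact_mod_cast (by omega : 0 < z)
    calc Real.log z ≤ Real.log (Real.exp (L / (R : ℝ) ^ 2)) := Real.log_le_log h2 h1
      _ = _ := Real.log_exp _
  have hpz : ∀ p ∈ P1 k R ∪ P2 k R, p.Prime ∧ 3 ≤ p ∧ p ≤ z := by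
    intro p hp
    obtain ⟨h1, h2, h3, h4⟩ := hprop p hp
    refine ⟨h1, h2, Nat.le_floor ?_⟩
    have hp0 : (0 : ℝ) < p := by exact_mod_cast h1.pos
    rw [← Real.log_le_iff_le_exp hp0]
    exact h4
  obtain ⟨a, ha, hmain⟩ := hRAM k z N (P1 k R) (P2 k R) hk3 hz2
    (fun p hp => hpz p (Finset.mem_union_left _ hp))
    (fun p hp => hpz p (Finset.mem_union_right _ hp)) hdisj
  have hram := hmain (fun n => eps k ((u : ZMod k) * (n : ZMod k)⁻¹)) (fun n => eps_abs_le _ _)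
  -- Karatsuba part
  have hkar : |∑ m ∈ (odds k).filter (fun m => N < m ∧ m * z ^ 2 < k),
      a m / m * ∑ p ∈ P1 k R, ∑ q ∈ P2 k R, 1 / ((p : ℝ) * q) *
        eps k ((u : ZMod k) * ((p * q * m : ℕ) : ZMod k)⁻¹)| ≤ D := by
    set E := 8 * (R : ℝ) ^ 6 * (1 + L) ^ 3 * Real.exp (-(L / (8 * (R : ℝ) ^ 9))) with hE
    have hE0 : 0 ≤ E := by positivity
    have hterm : ∀ m ∈ (odds k).filter (fun m => N < m ∧ m * z ^ 2 < k),
        |a m / m * ∑ p ∈ P1 k R, ∑ q ∈ P2 k R, 1 / ((p : ℝ) * q) *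
        eps k ((u : ZMod k) * ((p * q * m : ℕ) : ZMod k)⁻¹)| ≤ (1 : ℝ) / m * E := by
      intro m hm
      have hmo := (Finset.mem_filter.1 hm).1
      have hm0 : (0 : ℝ) < m := by exact_mod_cast (mem_odds hmo).1
      have hk := hKARS k R ((u : ZMod k) * (m : ZMod k)⁻¹) hk2 (by omega) hR10
        (mul_ne_zero (cast_ne_zero_of_odds hu) (inv_ne_zero (cast_ne_zero_of_odds hmo)))
      have heq : ∑ p ∈ P1 k R, ∑ q ∈ P2 k R, 1 / ((p : ℝ) * q) *
          eps k ((u : ZMod k) * ((p * q * m : ℕ) : ZMod k)⁻¹) =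
          ∑ p ∈ P1 k R, ∑ q ∈ P2 k R, 1 / ((p : ℝ) * q) *
          eps k ((u : ZMod k) * (m : ZMod k)⁻¹ * ((p : ZMod k) * (q : ZMod k))⁻¹) := by
        refine Finset.sum_congr rfl fun p _ => Finset.sum_congr rfl fun q _ => ?_
        congr 2
        push_cast
        rw [mul_inv]
        ring
      rw [heq, abs_mul]
      have hab : |a m / m| ≤ 1 / m := by
        rw [abs_div, abs_of_nonneg (ha m).1, abs_of_pos hm0]
        exact div_le_div_of_nonneg_right (ha m).2 hm0.le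
      exact mul_le_mul hab hk (abs_nonneg _) (by positivity)
    have hsum : ∑ m ∈ (odds k).filter (fun m => N < m ∧ m * z ^ 2 < k), (1 : ℝ) / m ≤ 1 + L :=
      sum_inv_odds_le k _ (Finset.filter_subset _ _)
    have h1 : |∑ m ∈ (odds k).filter (fun m => N < m ∧ m * z ^ 2 < k),
      a m / m * ∑ p ∈ P1 k R, ∑ q ∈ P2 k R, 1 / ((p : ℝ) * q) *
        eps k ((u : ZMod k) * ((p * q * m : ℕ) : ZMod k)⁻¹)| ≤ (1 + L) * E := by
      calc _ ≤ ∑ m ∈ (odds k).filter (fun m => N < m ∧ m * z ^ 2 < k), (1 : ℝ) / m * E :=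
            (Finset.abs_sum_le_sum_abs _ _).trans (Finset.sum_le_sum hterm)
        _ = (∑ m ∈ (odds k).filter (fun m => N < m ∧ m * z ^ 2 < k), (1 : ℝ) / m) * E := by
            rw [Finset.sum_mul]
        _ ≤ (1 + L) * E := mul_le_mul_of_nonneg_right hsum hE0
    refine h1.trans ?_
    -- bound by D
    have hexpo : Real.exp (-(L / (8 * (R : ℝ) ^ 9))) ≤ Real.exp (-(R / 8)) := by
      apply Real.exp_le_exp.2
      rw [neg_le_neg_iff, div_le_div_iff₀ (by norm_num) (by positivity)]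
      exact aux4 hR10
    have hR6 : (R : ℝ) ^ 6 ≤ ((R : ℝ) + 2) ^ 10 := by
      calc (R : ℝ) ^ 6 ≤ ((R : ℝ) + 2) ^ 6 := pow_le_pow_left₀ hRpos.le (by linarith) 6
        _ ≤ ((R : ℝ) + 2) ^ 10 := pow_le_pow_right₀ (by linarith) (by norm_num)
    have hL2 : 1 + L ≤ ((R : ℝ) + 2) ^ 10 := by
      have h3 : ((R : ℝ) + 1) ^ 10 + 1 ≤ ((R : ℝ) + 2) ^ 10 := by
        have h4 : ((R : ℝ) + 1) ^ 9 ≤ ((R : ℝ) + 2) ^ 9 :=
          pow_le_pow_left₀ (by linarith) (by linarith) 9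
        have h5 : (1 : ℝ) ≤ ((R : ℝ) + 1) ^ 9 := one_le_pow₀ (by linarith)
        calc ((R : ℝ) + 1) ^ 10 + 1 ≤ ((R : ℝ) + 1) ^ 10 + ((R : ℝ) + 1) ^ 9 := by linarith
          _ = ((R : ℝ) + 2) * ((R : ℝ) + 1) ^ 9 := by ring
          _ ≤ ((R : ℝ) + 2) * ((R : ℝ) + 2) ^ 9 := mul_le_mul_of_nonneg_left h4 (by linarith)
          _ = ((R : ℝ) + 2) ^ 10 := by ring
      linarith
    have hmul : (1 + L) * E ≤ 8 * (((R : ℝ) + 2) ^ 10) ^ 5 * Real.exp (-(R / 8)) := by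
      have h4 : (1 + L) * E = 8 * ((R : ℝ) ^ 6 * (1 + L) ^ 4) * Real.exp (-(L / (8 * (R : ℝ) ^ 9))) := by
        rw [hE]; ring
      rw [h4]
      have h5 : (1 + L) ^ 4 ≤ (((R : ℝ) + 2) ^ 10) ^ 4 := pow_le_pow_left₀ (by linarith) hL2 4
      have h6 : (R : ℝ) ^ 6 * (1 + L) ^ 4 ≤ ((R : ℝ) + 2) ^ 10 * (((R : ℝ) + 2) ^ 10) ^ 4 :=
        mul_le_mul hR6 h5 (by positivity) (by positivity)
      calc 8 * ((R : ℝ) ^ 6 * (1 + L) ^ 4) * Real.exp (-(L / (8 * (R : ℝ) ^ 9)))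
          ≤ 8 * (((R : ℝ) + 2) ^ 10 * (((R : ℝ) + 2) ^ 10) ^ 4) * Real.exp (-(R / 8)) :=
            mul_le_mul (by linarith) hexpo (Real.exp_pos _).le (by positivity)
        _ = _ := by ring
    refine hmul.trans ?_
    rw [hD, le_div_iff₀ hℓ2]
    have hℓ' : ℓ ^ 2 ≤ 100 * ((R : ℝ) + 2) ^ 2 := by
      have h7 : Real.log ((R : ℝ) + 1) ≤ R + 2 := by
        have := Real.log_le_sub_one_of_pos (show (0 : ℝ) < R + 1 by linarith)
        linarith
      have h8 : ℓ ≤ 10 * ((R : ℝ) + 2) := by linarith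
      calc ℓ ^ 2 ≤ (10 * ((R : ℝ) + 2)) ^ 2 := pow_le_pow_left₀ hℓpos.le h8 2
        _ = _ := by ring
    have hexp9 : Real.exp (-((R : ℝ) / 8)) * Real.exp (R / 8) = 1 := by
      rw [← Real.exp_add]; simp
    calc 8 * (((R : ℝ) + 2) ^ 10) ^ 5 * Real.exp (-(R / 8)) * ℓ ^ 2
        ≤ 8 * (((R : ℝ) + 2) ^ 10) ^ 5 * Real.exp (-(R / 8)) * (100 * ((R : ℝ) + 2) ^ 2) :=
          mul_le_mul_of_nonneg_left hℓ' (by positivity)
      _ = 800 * ((R : ℝ) + 2) ^ 52 * Real.exp (-(R / 8)) := by ring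
      _ ≤ Real.exp (R / 8) * Real.exp (-(R / 8)) :=
          mul_le_mul_of_nonneg_right g1 (Real.exp_pos _).le
      _ = 1 := by rw [mul_comm]; exact hexp9
      _ ≤ L := by linarith
  -- exceptional sets
  have hexc : ∀ P : Finset ℕ, P ⊆ P1 k R ∪ P2 k R → c * Real.log R ≤ ∑ p ∈ P, (1 : ℝ) / p →
      ∑ n ∈ (odds k).filter (fun n => ∀ p ∈ P, ¬ p ∣ n), (1 : ℝ) / n ≤ 6400 / c ^ 2 * D := by
    intro P hP hΛ
    have h1 := hEXC k P hk3 (fun p hp => ⟨(hprop p (hP hp)).1, (hprop p (hP hp)).2.2.1⟩)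
      (g3.trans hΛ)
    refine h1.trans ?_
    have h2 : (c * Real.log R) ^ 2 ≤ (∑ p ∈ P, (1 : ℝ) / p) ^ 2 :=
      pow_le_pow_left₀ (by positivity) hΛ 2
    have h3 : (0 : ℝ) < (c * Real.log R) ^ 2 := by positivity
    calc 8 * (1 + Real.log k) / (∑ p ∈ P, (1 : ℝ) / p) ^ 2
        ≤ 8 * (1 + Real.log k) / (c * Real.log R) ^ 2 :=
          div_le_div_of_nonneg_left (by rw [← hL]; positivity) h3 h2
      _ ≤ 16 * L / (c * Real.log R) ^ 2 := by
          apply div_le_div_of_nonneg_right _ h3.le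
          rw [← hL]; linarith
      _ ≤ 6400 / c ^ 2 * D := by
          have h4 : ℓ ^ 2 ≤ 400 * (Real.log R) ^ 2 := by
            calc ℓ ^ 2 ≤ (20 * Real.log R) ^ 2 := pow_le_pow_left₀ hℓpos.le hℓR 2
              _ = _ := by ring
          rw [hD, div_mul_div_comm, div_le_div_iff₀ h3 (by positivity)]
          exact aux5 hL0 h4
  have hx1 := hexc (P1 k R) Finset.subset_union_left hΛ1
  have hx2 := hexc (P2 k R) Finset.subset_union_right hΛ2
  have hx3 : (1 + Real.log k) * ∑ p ∈ P1 k R ∪ P2 k R, (1 : ℝ) / p ^ 2 ≤ D := by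
    calc (1 + Real.log k) * ∑ p ∈ P1 k R ∪ P2 k R, (1 : ℝ) / p ^ 2
        ≤ (2 * L) * (1 / R) := by
          apply mul_le_mul _ hsq (Finset.sum_nonneg fun i _ => by positivity) (by positivity)
          rw [← hL]; linarith
      _ = 2 * L / R := by ring
      _ ≤ D := hD2
  have hx4 : 8 * (1 + Real.log z) ≤ D := by
    have h1 : 8 * (1 + Real.log z) ≤ 8 * (L / (R : ℝ) ^ 2 + L / (R : ℝ) ^ 2) := by
      have h2 : (1 : ℝ) ≤ L / (R : ℝ) ^ 2 := by
        rw [le_div_iff₀ (by positivity)]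
        have : (R : ℝ) ^ 2 ≤ (R : ℝ) ^ 10 := pow_le_pow_right₀ (by linarith) (by norm_num)
        linarith
      linarith
    refine h1.trans ?_
    have h3 : 8 * (L / (R : ℝ) ^ 2 + L / (R : ℝ) ^ 2) = (2 * L / R) * (8 / R) := by
      field_simp; ring
    rw [h3]
    have h4 : (8 : ℝ) / R ≤ 1 := by rw [div_le_one hRpos]; exact hR8'
    have h5 : 0 ≤ 2 * L / R := by positivity
    exact aux6 h5 h4 hD2
  -- the sum with weights 1/n
  have hM : |∑ n ∈ (odds k).filter (fun n => N < n),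
      eps k ((u : ZMod k) * (n : ZMod k)⁻¹) / n| ≤ (12800 / c ^ 2 + 3) * D := by
    have h1 := abs_sub_abs_le_abs_sub
      (∑ n ∈ (odds k).filter (fun n => N < n), eps k ((u : ZMod k) * (n : ZMod k)⁻¹) / n)
      (∑ m ∈ (odds k).filter (fun m => N < m ∧ m * z ^ 2 < k),
      a m / m * ∑ p ∈ P1 k R, ∑ q ∈ P2 k R, 1 / ((p : ℝ) * q) *
        eps k ((u : ZMod k) * ((p * q * m : ℕ) : ZMod k)⁻¹))
    have h2 : (12800 / c ^ 2 + 3) * D = D + 6400 / c ^ 2 * D + 6400 / c ^ 2 * D + D + D := by ring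
    rw [h2]
    linarith
  -- from cot to 1/n
  obtain ⟨_, _, hw3, _, _, _⟩ := hWGT k hk3
  have hdiff : |∑ n ∈ (odds k).filter (fun n => N < n), w k n * eps k ((u : ZMod k) * (n : ZMod k)⁻¹)
      - (2 * k / Real.pi) * ∑ n ∈ (odds k).filter (fun n => N < n),
        eps k ((u : ZMod k) * (n : ZMod k)⁻¹) / n| ≤ k := by
    rw [Finset.mul_sum, ← Finset.sum_sub_distrib]
    calc _ ≤ ∑ n ∈ (odds k).filter (fun n => N < n), (1 : ℝ) := by
          refine (Finset.abs_sum_le_sum_abs _ _).trans (Finset.sum_le_sum fun n hn => ?_)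
          have hno := mem_odds (Finset.mem_filter.1 hn).1
          have hn0 : (0 : ℝ) < n := by exact_mod_cast hno.1
          have h1 : w k n * eps k ((u : ZMod k) * (n : ZMod k)⁻¹) -
              2 * k / Real.pi * (eps k ((u : ZMod k) * (n : ZMod k)⁻¹) / n) =
              (w k n - 2 * k / (Real.pi * n)) * eps k ((u : ZMod k) * (n : ZMod k)⁻¹) := by
            field_simp
          rw [h1, abs_mul]
          have h2 := hw3 n hno.1 hno.2
          have h3 := eps_abs_le k ((u : ZMod k) * (n : ZMod k)⁻¹)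
          exact aux7 h2 h3
      _ ≤ k := by
          rw [Finset.sum_const, nsmul_eq_mul, mul_one]
          have h4 : ((odds k).filter (fun n => N < n)).card ≤ k := by
            refine (Finset.card_filter_le _ _).trans ((Finset.card_filter_le _ _).trans ?_)
            simp
          exact_mod_cast h4
  have hD1 : 1 ≤ D := by
    rw [hD, le_div_iff₀ hℓ2]
    exact aux8 hℓsq hRL hℓ2.le
  have hpi : 2 * (k : ℝ) / Real.pi ≤ k := by
    rw [div_le_iff₀ Real.pi_pos]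
    exact aux9 hkpos
  have hfin : |∑ n ∈ (odds k).filter (fun n => N < n),
      w k n * eps k ((u : ZMod k) * (n : ZMod k)⁻¹)| ≤ k + k * ((12800 / c ^ 2 + 3) * D) := by
    have h1 := abs_sub_abs_le_abs_sub (∑ n ∈ (odds k).filter (fun n => N < n),
      w k n * eps k ((u : ZMod k) * (n : ZMod k)⁻¹))
      ((2 * k / Real.pi) * ∑ n ∈ (odds k).filter (fun n => N < n),
        eps k ((u : ZMod k) * (n : ZMod k)⁻¹) / n)
    have h2 : |(2 * k / Real.pi) * ∑ n ∈ (odds k).filter (fun n => N < n),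
        eps k ((u : ZMod k) * (n : ZMod k)⁻¹) / n| ≤ k * ((12800 / c ^ 2 + 3) * D) := by
      rw [abs_mul, abs_of_nonneg (by positivity)]
      exact mul_le_mul hpi hM (abs_nonneg _) hkpos.le
    linarith
  refine hfin.trans ?_
  have h9 : (12800 / c ^ 2 + 10) * k * L / ℓ ^ 2 = k * ((12800 / c ^ 2 + 10) * D) := by
    rw [hD]; ring
  rw [h9]
  have h10 := aux10 (X := 12800 / c ^ 2 + 3) hkpos hD1
  have h11 : (12800 / c ^ 2 + 3 + 7 : ℝ) = 12800 / c ^ 2 + 10 := by ring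
  rw [h11] at h10
  exact h10

end Pool.Agent.H46.SK
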