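import Pool.Agent.H46.SK.Targets

namespace Pool.Agent.H46.SKMOM

open _root_.SK Finset ComplexConjugate

lemma addChar_sum {k r : ℕ} (ψ : AddChar (ZMod k) ℂ) (s : Finset (Fin r)) (f : Fin r → ZMod k) :
    ψ (∑ i ∈ s, f i) = ∏ i ∈ s, ψ (f i) := by
  classical
  induction s using Finset.induction_on with
  | empty => simp
  | insert a s ha ih => rw [Finset.sum_insert ha, Finset.prod_insert ha, AddChar.map_add_eq_mul, ih]

theorem pf_MOM (hDIAG : TARGET_DIAG) : TARGET_MOM := by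
  intro k r hkf A hr hA
  have hkp : k.Prime := hkf.out
  classical
  set X : Finset (Fin r → ℕ) := Fintype.piFinset (fun _ : Fin r => A) with hX
  set W : (Fin r → ℕ) → ℝ := fun x => ∏ i, (1 / (x i : ℝ)) with hW
  set σ : (Fin r → ℕ) → ZMod k := fun x => ∑ i, ((x i : ZMod k))⁻¹ with hσ
  set g : ZMod k → ℂ := fun a => ∑ p ∈ A, ((1 / p : ℝ) : ℂ) * ZMod.stdAddChar (a * (p : ZMod k)⁻¹)
    with hg
  have hW0 : ∀ x, 0 ≤ W x := fun x => Finset.prod_nonneg fun i _ => by positivity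
  have hpow : ∀ a, g a ^ r = ∑ x ∈ X, (W x : ℂ) * ZMod.stdAddChar (a * σ x) := by
    intro a
    simp only [hg]
    rw [Finset.sum_pow']
    refine Finset.sum_congr rfl fun x _ => ?_
    rw [Finset.prod_mul_distrib]
    congr 1
    · simp only [hW]; push_cast; rfl
    · simp only [hσ]
      rw [Finset.mul_sum, addChar_sum]
  have hconj : ∀ a, (conj (g a)) ^ r = ∑ y ∈ X, (W y : ℂ) * ZMod.stdAddChar (-(a * σ y)) := by
    intro a
    rw [← map_pow, hpow, map_sum]
    refine Finset.sum_congr rfl fun y _ => ?_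
    rw [map_mul, Complex.conj_ofReal, AddChar.map_neg_eq_conj]
  have hnorm : ∀ a, ((‖g a‖ ^ (2 * r) : ℝ) : ℂ) =
      ∑ x ∈ X, ∑ y ∈ X, ((W x * W y : ℝ) : ℂ) * ZMod.stdAddChar (a * (σ x - σ y)) := by
    intro a
    have h1 : ((‖g a‖ ^ (2 * r) : ℝ) : ℂ) = g a ^ r * (conj (g a)) ^ r := by
      rw [← mul_pow, Complex.mul_conj, pow_mul, Complex.normSq_eq_norm_sq]
      push_cast; rfl
    rw [h1, hpow, hconj, Finset.sum_mul_sum]
    refine Finset.sum_congr rfl fun x _ => Finset.sum_congr rfl fun y _ => ?_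
    rw [mul_sub, sub_eq_add_neg (a * σ x), AddChar.map_add_eq_mul]
    push_cast; ring
  have hsum : (((∑ a : ZMod k, ‖g a‖ ^ (2 * r) : ℝ)) : ℂ) =
      (((k : ℝ) * ∑ x ∈ X, ∑ y ∈ X, (if σ x = σ y then W x * W y else 0) : ℝ) : ℂ) := by
    rw [Complex.ofReal_sum]
    simp_rw [hnorm]
    rw [Finset.sum_comm]
    simp_rw [Finset.sum_comm (s := (Finset.univ : Finset (ZMod k))) (t := X)]
    rw [Complex.ofReal_mul, Complex.ofReal_sum, Finset.mul_sum]
    refine Finset.sum_congr rfl fun x _ => ?_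
    rw [Complex.ofReal_sum, Finset.mul_sum]
    refine Finset.sum_congr rfl fun y _ => ?_
    rw [← Finset.mul_sum]
    have h := AddChar.sum_mulShift (R' := ℂ) (σ x - σ y) (ZMod.isPrimitive_stdAddChar k)
    rw [h]
    by_cases hxy : σ x = σ y
    · rw [if_pos (sub_eq_zero.2 hxy), if_pos hxy, ZMod.card]
      push_cast; ring
    · rw [if_neg (fun h0 => hxy (sub_eq_zero.1 h0)), if_neg hxy]
      simp
  have hsum' := Complex.ofReal_injective hsum
  show ∑ a : ZMod k, ‖g a‖ ^ (2 * r) ≤ _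
  rw [hsum']
  have hperm : ∀ x ∈ X, ∑ y ∈ X, (if σ x = σ y then W x * W y else 0) ≤
      (r.factorial : ℝ) * W x ^ 2 := by
    intro x hx
    have hWσ : ∀ τ : Equiv.Perm (Fin r), W (fun i => x (τ i)) = W x := by
      intro τ
      simp only [hW]
      exact Equiv.prod_comp τ (fun i => 1 / (x i : ℝ))
    have h1 : ∑ y ∈ X, (if σ x = σ y then W x * W y else 0) =
        ∑ y ∈ X.filter (fun y => σ x = σ y), W x * W y := by
      rw [Finset.sum_filter]
    rw [h1]
    have h2 : X.filter (fun y => σ x = σ y) ⊆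
        (Finset.univ : Finset (Equiv.Perm (Fin r))).image (fun τ => fun i => x (τ i)) := by
      intro y hy
      rw [Finset.mem_filter] at hy
      obtain ⟨hyX, hxy⟩ := hy
      obtain ⟨τ, hτ⟩ := hDIAG k r A hkp hr hA x y (fun i => Fintype.mem_piFinset.1 hx i)
        (fun i => Fintype.mem_piFinset.1 hyX i) hxy
      rw [Finset.mem_image]
      exact ⟨τ, Finset.mem_univ _, funext fun i => (hτ i).symm⟩
    calc ∑ y ∈ X.filter (fun y => σ x = σ y), W x * W y
        ≤ ∑ y ∈ (Finset.univ : Finset (Equiv.Perm (Fin r))).image (fun τ => fun i => x (τ i)),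
            W x * W y :=
          Finset.sum_le_sum_of_subset_of_nonneg h2 fun y _ _ => mul_nonneg (hW0 _) (hW0 _)
      _ ≤ ∑ τ : Equiv.Perm (Fin r), W x * W (fun i => x (τ i)) := by
          refine Finset.sum_image_le_of_nonneg ?_
          intro y _
          exact mul_nonneg (hW0 _) (hW0 _)
      _ = (r.factorial : ℝ) * W x ^ 2 := by
          simp_rw [hWσ]
          rw [Finset.sum_const, Finset.card_univ, Fintype.card_perm, Fintype.card_fin,
            nsmul_eq_mul]
          ring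
  have hW2 : ∑ x ∈ X, W x ^ 2 = (∑ p ∈ A, (1 : ℝ) / p ^ 2) ^ r := by
    rw [Finset.sum_pow']
    refine Finset.sum_congr rfl fun x _ => ?_
    simp only [hW]
    rw [← Finset.prod_pow]
    refine Finset.prod_congr rfl fun i _ => ?_
    rw [div_pow, one_pow]
  calc (k : ℝ) * ∑ x ∈ X, ∑ y ∈ X, (if σ x = σ y then W x * W y else 0)
      ≤ (k : ℝ) * ∑ x ∈ X, (r.factorial : ℝ) * W x ^ 2 :=
        mul_le_mul_of_nonneg_left (Finset.sum_le_sum hperm) (by positivity)
    _ = k * (r.factorial : ℝ) * (∑ p ∈ A, (1 : ℝ) / p ^ 2) ^ r := by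
        rw [← Finset.mul_sum, hW2]; ring

end Pool.Agent.H46.SKMOM
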