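import Pool.Agent.H46.SK.Targets
import Pool.Agent.H46.SK.FU
import Pool.Agent.H56.SK.ABEL
import Pool.Agent.H56.SK.DIR
import Pool.Agent.H47.SK.BADW
import Pool.Agent.H47.SK.KAR
import Pool.Agent.H21.SK.BLK
import Pool.Agent.H21.SK.RAM
import Pool.Agent.H32.SK.CHE
import Pool.Agent.H32.SK.LARGE
import Pool.Agent.H73.SK.DIAG
import Pool.Agent.H73.SK.EXC
import Pool.Agent.H73.SK.FOT
import Pool.Agent.H58.SK.FIN
import Pool.Agent.H58.SK.GOODT
import Pool.Agent.H58.SK.MIDR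
import Pool.Agent.H20.SK.FORM
import Pool.Agent.H20.SK.FOUR
import Pool.Agent.H20.SK.WGT
import Pool.Agent.H67.SK.KARS
import Pool.Agent.H67.SK.PERT
import Pool.Agent.H67.SK.QB
import Pool.Agent.H69.SK.LAM
import Pool.Agent.H69.SK.T1
import Pool.Agent.H33.PO.PERB
import Pool.Agent.H33.PO.SMO
import Pool.Agent.H33.PO.TAIL
import Pool.Agent.H14.PO.TRI
import Pool.Agent.H46.SK.MOM
import Pool.Agent.H17.SK.KARB

/-! Assembly of the board po_modules: the asymptotic formula for `S(k)` at primes. -/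

namespace Pool.Agent.H46.SKMain

open _root_.SK

theorem hWGT : TARGET_WGT := Pool.Agent.H20.SK.pf_WGT
theorem hABEL : TARGET_ABEL := Pool.Agent.H56.SK.pf_ABEL
theorem hDIR : TARGET_DIR := Pool.Agent.H56.SK.pf_DIR
theorem hBADW : TARGET_BADW := Pool.Agent.H47.PO.BADW.pf_BADW
theorem hKAR : TARGET_KAR := Pool.Agent.H47.PO.KAR.pf_KAR
theorem hBLK : TARGET_BLK := Pool.Agent.H21.SK.pf_BLK
theorem hRAM : TARGET_RAM := Pool.Agent.H21.SKR.pf_RAM
theorem hCHE : TARGET_CHE := Pool.Agent.H32.SKCHE.pf_CHE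
theorem hDIAG : TARGET_DIAG := Pool.Agent.H73.PO.pf_DIAG
theorem hEXC : TARGET_EXC := Pool.Agent.H73.PO.pf_EXC
theorem hFOT : TARGET_FOT := Pool.Agent.H73.PO.pf_FOT
theorem hQB : TARGET_QB := Pool.Agent.H67.SKM.pf_QB
theorem hPERB : TARGET_PERB := Pool.Agent.H33.PO.PERB.pf_PERB
theorem hSMO : TARGET_SMO := Pool.Agent.H33.PO.SMO.pf_SMO
theorem hTRI : TARGET_TRI := Pool.Agent.H14.PO.pf_TRI
theorem hFOU : TARGET_FOU := Pool.Agent.H14.PO.pf_FOU hFOT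
theorem hFORM : TARGET_FORM := Pool.Agent.H20.SK.pf_FORM hTRI hFOT hFOU
theorem hFOUR : TARGET_FOUR := Pool.Agent.H20.SK.pf_FOUR hFOU hWGT
theorem hT1 : TARGET_T1 := Pool.Agent.H69.SKT.pf_T1 hWGT
theorem hPERT : TARGET_PERT := Pool.Agent.H67.SKM.pf_PERT hWGT hABEL hPERB
theorem hTAIL : TARGET_TAIL := Pool.Agent.H33.PO.TAIL.pf_TAIL hWGT hABEL hBLK
theorem hGOODT : TARGET_GOODT := SK.pf_GOODT hDIR hTAIL
theorem hMIDR : TARGET_MIDR := SK.pf_MIDR hWGT hGOODT hBADW hSMO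
theorem hMOM : TARGET_MOM := Pool.Agent.H46.SKMOM.pf_MOM hDIAG
theorem hKARB : TARGET_KARB := Pool.Agent.H17.SKB.pf_KARB hKAR hMOM hQB
theorem hKARS : TARGET_KARS := Pool.Agent.H67.SKM.pf_KARS hFOUR hKARB
theorem hLAM : TARGET_LAM := Pool.Agent.H69.SKL.pf_LAM hCHE hQB
theorem hFU : TARGET_FU := Pool.Agent.H46.SK.pf_FU hWGT hRAM hEXC hLAM hKARS
theorem hSMALL : TARGET_SMALL := Pool.Agent.H69.SKT.pf_SMALL hWGT hT1 hPERT
theorem hLARGE : TARGET_LARGE := Pool.Agent.H32.SKLARGE.pf_LARGE hWGT hMIDR hFU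
theorem hFIN : TARGET_FIN := SK.pf_FIN hFORM hSMALL hLARGE

/-- The asymptotic formula together with positivity. -/
theorem main : ∀ ε : ℝ, 0 < ε → ∃ K : ℕ, ∀ k : ℕ, k.Prime → K ≤ k →
    0 < S k ∧ |(S k : ℝ) - k * Real.log k / 2| ≤ ε * (k * Real.log k) := by
  intro ε hε
  obtain ⟨K, hK⟩ := hFIN (min ε (1 / 4)) (lt_min hε (by norm_num))
  refine ⟨max K 3, fun k hk hKk => ?_⟩
  have h := hK k hk ((le_max_left _ _).trans hKk)
  have h3 : 3 ≤ k := (le_max_right _ _).trans hKk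
  have hk3 : (3 : ℝ) ≤ k := by exact_mod_cast h3
  have hlog : 0 < Real.log k := Real.log_pos (by linarith)
  have hpos : 0 < (k : ℝ) * Real.log k := by positivity
  have h1 : min ε (1 / 4) * (k * Real.log k) ≤ ε * (k * Real.log k) :=
    mul_le_mul_of_nonneg_right (min_le_left _ _) hpos.le
  have h2 : min ε (1 / 4) * (k * Real.log k) ≤ 1 / 4 * (k * Real.log k) :=
    mul_le_mul_of_nonneg_right (min_le_right _ _) hpos.le
  refine ⟨?_, h.trans h1⟩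
  have h4 := (abs_le.1 h).1
  have h5 : (0 : ℝ) < (S k : ℝ) := by linarith
  exact_mod_cast h5

end Pool.Agent.H46.SKMain
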