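import Pool.Agent.H46.SK.Targets

namespace Pool.Agent.H46.SKTRI

open _root_.SK Finset

lemma eps_neg (k : ℕ) [Fact k.Prime] (hk : k ≠ 2) (x : ZMod k) : eps k (-x) = - eps k x := by
  have hkp : k.Prime := Fact.out
  have hodd : k % 2 = 1 := (hkp.eq_two_or_odd).resolve_left hk
  unfold eps
  by_cases hx : x = 0
  · simp [hx]
  · have hnx : -x ≠ 0 := by simpa using hx
    rw [if_neg hx, if_neg hnx]
    have h1 : (-x).val = k - x.val := by
      rw [ZMod.neg_val, if_neg hx]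
    have h2 := ZMod.val_lt x
    have h3 : x.val ≠ 0 := by simpa [ZMod.val_eq_zero] using hx
    rw [h1]
    by_cases hp : x.val % 2 = 1
    · have h4 : ¬ (k - x.val) % 2 = 1 := by omega
      rw [if_neg h4, if_pos hp]
    · have h4 : (k - x.val) % 2 = 1 := by omega
      rw [if_pos h4, if_neg hp]; norm_num

lemma eps_cast (k j : ℕ) (h1 : 0 < j) (h2 : j < k) : eps k (j : ZMod k) = -((-1 : ℝ) ^ j) := by
  have : NeZero k := ⟨by omega⟩
  unfold eps
  have h3 : (j : ZMod k) ≠ 0 := by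
    intro h0
    rw [ZMod.natCast_eq_zero_iff] at h0
    exact absurd (Nat.le_of_dvd h1 h0) (by omega)
  rw [if_neg h3, ZMod.val_natCast, Nat.mod_eq_of_lt h2]
  by_cases hp : j % 2 = 1
  · rw [if_pos hp, Odd.neg_one_pow (Nat.odd_iff.2 hp)]; norm_num
  · rw [if_neg hp, Even.neg_one_pow (Nat.even_iff.2 (by omega))]

lemma sum_univ_eq (k : ℕ) [Fact k.Prime] (f : ZMod k → ℝ) (h0 : f 0 = 0) :
    ∑ x : ZMod k, f x = ∑ j ∈ Finset.Ico 1 k, f (j : ZMod k) := by
  have hkp : k.Prime := Fact.out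
  have h1 : ∑ j ∈ Finset.range k, f (j : ZMod k) = ∑ x : ZMod k, f x := by
    refine Finset.sum_bij' (fun j _ => (j : ZMod k)) (fun x _ => x.val) ?_ ?_ ?_ ?_ ?_
    · intros; simp
    · intro x _; simpa using ZMod.val_lt x
    · intro j hj
      rw [ZMod.val_natCast, Nat.mod_eq_of_lt (Finset.mem_range.1 hj)]
    · intro x _; simp
    · intros; rfl
  rw [← h1, Finset.range_eq_Ico, Finset.sum_eq_sum_Ico_succ_bot hkp.pos]
  simp [h0]

lemma sum_eps (k : ℕ) [Fact k.Prime] (hk : k ≠ 2) : ∑ x : ZMod k, eps k x = 0 := by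
  have h : ∑ x : ZMod k, eps k x = ∑ x : ZMod k, eps k (-x) :=
    (Equiv.sum_comp (Equiv.neg (ZMod k)) (fun x => eps k x)).symm
  have h2 : ∑ x : ZMod k, eps k (-x) = - ∑ x : ZMod k, eps k x := by
    rw [← Finset.sum_neg_distrib]
    exact Finset.sum_congr rfl fun x _ => eps_neg k hk x
  linarith

/-- the correlation -/
noncomputable def C (k : ℕ) [Fact k.Prime] (h : ZMod k) : ℝ := ∑ j : ZMod k, eps k j * eps k (h * j)

lemma C_neg (k : ℕ) [Fact k.Prime] (hk : k ≠ 2) (h : ZMod k) : C k (-h) = - C k h := by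
  unfold C
  rw [← Finset.sum_neg_distrib]
  refine Finset.sum_congr rfl fun j _ => ?_
  rw [neg_mul, eps_neg k hk]; ring

lemma sum_C (k : ℕ) [Fact k.Prime] (hk : k ≠ 2) : ∑ x : ZMod k, C k x = 0 := by
  have h : ∑ x : ZMod k, C k x = ∑ x : ZMod k, C k (-x) :=
    (Equiv.sum_comp (Equiv.neg (ZMod k)) (fun x => C k x)).symm
  have h2 : ∑ x : ZMod k, C k (-x) = - ∑ x : ZMod k, C k x := by
    rw [← Finset.sum_neg_distrib]
    exact Finset.sum_congr rfl fun x _ => C_neg k hk x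
  linarith

lemma term_eq (k h j : ℕ) [Fact k.Prime] (hk : k ≠ 2) (h1 : 0 < h) (h2 : h < k) (h3 : 0 < j)
    (h4 : j < k) : ((-1 : ℝ)) ^ (j + 1 + h * j / k) =
      if h % 2 = 1 then eps k ((h : ZMod k) * j) else - (eps k (j : ZMod k) * eps k ((h : ZMod k) * j)) := by
  have hkp : k.Prime := Fact.out
  have hodd : k % 2 = 1 := (hkp.eq_two_or_odd).resolve_left hk
  have hr0 : 0 < (h * j) % k := by
    rw [Nat.pos_iff_ne_zero]
    intro h0
    have := (hkp.dvd_mul).1 (Nat.dvd_of_mod_eq_zero h0)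
    rcases this with h5 | h5
    · exact absurd (Nat.le_of_dvd h1 h5) (by omega)
    · exact absurd (Nat.le_of_dvd h3 h5) (by omega)
  have hrk : (h * j) % k < k := Nat.mod_lt _ hkp.pos
  have hcast : ((h : ZMod k) * j) = (((h * j) % k : ℕ) : ZMod k) := by
    rw [ZMod.natCast_mod]; push_cast; ring
  have heps : eps k ((h : ZMod k) * j) = -((-1 : ℝ) ^ ((h * j) % k)) := by
    rw [hcast, eps_cast k _ hr0 hrk]
  have hdiv : k * (h * j / k) + (h * j) % k = h * j := Nat.div_add_mod _ _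
  have hpar : (h * j / k) % 2 = (h * j + (h * j) % k) % 2 := by
    have h5 : (k * (h * j / k)) % 2 = (h * j / k) % 2 := by
      rw [Nat.mul_mod, hodd, one_mul, Nat.mod_mod]
    omega
  have hpow : ((-1 : ℝ)) ^ (h * j / k) = (-1) ^ (h * j + (h * j) % k) := by
    rw [neg_one_pow_eq_pow_mod_two, hpar, ← neg_one_pow_eq_pow_mod_two]
  rw [pow_add, pow_add, hpow, pow_add, heps, eps_cast k j h3 h4]
  split_ifs with hh
  · have h6 : ((-1 : ℝ)) ^ (h * j) = (-1) ^ j := by
      rw [pow_mul, Odd.neg_one_pow (Nat.odd_iff.2 hh)]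
    have h7 : ((-1 : ℝ)) ^ j * (-1) ^ j = 1 := by
      rw [← pow_add, ← two_mul, pow_mul]; norm_num
    rw [h6]
    linear_combination (-((-1 : ℝ) ^ ((h * j) % k))) * h7
  · have h6 : ((-1 : ℝ)) ^ (h * j) = 1 := by
      rw [pow_mul, Even.neg_one_pow (Nat.even_iff.2 (by omega)), one_pow]
    rw [h6]; ring

theorem pf_TRI : TARGET_TRI := by
  intro k _ hk
  have hkp : k.Prime := Fact.out
  have hC0 : C k 0 = 0 := by unfold C; simp [eps]
  have hSp : ∀ h ∈ Finset.Ico 1 k, ((Sp h k : ℤ) : ℝ) =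
      -((1 - eps k (h : ZMod k)) / 2 * C k (h : ZMod k)) := by
    intro h hh
    rw [Finset.mem_Ico] at hh
    unfold Sp
    push_cast
    have h1 : ∀ j ∈ Finset.Ico 1 k, ((-1 : ℝ)) ^ (j + 1 + h * j / k) =
      if h % 2 = 1 then eps k ((h : ZMod k) * j) else - (eps k (j : ZMod k) * eps k ((h : ZMod k) * j)) := by
      intro j hj
      rw [Finset.mem_Ico] at hj
      exact term_eq k h j hk (by omega) hh.2 (by omega) hj.2
    rw [Finset.sum_congr rfl h1]
    have hh0 : (h : ZMod k) ≠ 0 := by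
      intro h0
      rw [ZMod.natCast_eq_zero_iff] at h0
      exact absurd (Nat.le_of_dvd (by omega) h0) (by omega)
    split_ifs with hp
    · rw [← sum_univ_eq k (fun x => eps k ((h : ZMod k) * x)) (by simp [eps])]
      have h2 : ∑ x : ZMod k, eps k ((h : ZMod k) * x) = ∑ x : ZMod k, eps k x :=
        Equiv.sum_comp (Equiv.mulLeft₀ (h : ZMod k) hh0) (fun x => eps k x)
      rw [h2, sum_eps k hk, eps_cast k h (by omega) hh.2, Odd.neg_one_pow (Nat.odd_iff.2 hp)]
      ring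
    · rw [Finset.sum_neg_distrib, ← sum_univ_eq k (fun x => eps k x * eps k ((h : ZMod k) * x))
        (by simp [eps])]
      rw [eps_cast k h (by omega) hh.2, Even.neg_one_pow (Nat.even_iff.2 (by omega))]
      unfold C
      ring
  unfold S
  push_cast
  rw [Finset.sum_congr rfl hSp, Finset.sum_neg_distrib,
    ← sum_univ_eq k (fun x => (1 - eps k x) / 2 * C k x) (by simp [hC0])]
  have h3 : ∑ x : ZMod k, (1 - eps k x) / 2 * C k x =
      1 / 2 * ∑ x : ZMod k, C k x - 1 / 2 * ∑ x : ZMod k, eps k x * C k x := by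
    rw [Finset.mul_sum, Finset.mul_sum, ← Finset.sum_sub_distrib]
    exact Finset.sum_congr rfl fun x _ => by ring
  rw [h3, sum_C k hk]
  have h4 : ∑ h : ZMod k, ∑ j : ZMod k, eps k h * eps k j * eps k (h * j) =
      ∑ x : ZMod k, eps k x * C k x := by
    refine Finset.sum_congr rfl fun x _ => ?_
    unfold C
    rw [Finset.mul_sum]
    exact Finset.sum_congr rfl fun j _ => by ring
  rw [h4]
  ring

end Pool.Agent.H46.SKTRI
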