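import Mathlib

/-!
# Targets for MP_2fe131_nt (board po_modules)

`S(k) ~ (k/2) log k` along the odd primes; in particular `S(k) > 0` for all large primes.
-/

namespace SK

open Finset

/-- The inner sum `S'(h,k)` of the problem. -/
def Sp (h k : ℕ) : ℤ := ∑ j ∈ Finset.Ico 1 k, (-1 : ℤ) ^ (j + 1 + h * j / k)

/-- The sum `S(k)` of the problem. -/
def S (k : ℕ) : ℤ := ∑ h ∈ Finset.Ico 1 k, Sp h k

/-- Parity sign of the least residue of `x`: `1` if it is odd, `-1` if it is even and not zero,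
`0` at zero. -/
noncomputable def eps (k : ℕ) (x : ZMod k) : ℝ :=
  if x = 0 then 0 else if x.val % 2 = 1 then 1 else -1

/-- The weights `cot (π n / 2k)`. -/
noncomputable def w (k n : ℕ) : ℝ :=
  Real.cos (Real.pi * n / (2 * k)) / Real.sin (Real.pi * n / (2 * k))

/-- The odd numbers below `k`. -/
def odds (k : ℕ) : Finset ℕ := (Finset.range k).filter (fun n => n % 2 = 1)

/-- `T(n) = ∑_{u odd} cot(πu/2k) eps(u/n)`. -/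
noncomputable def T (k n : ℕ) : ℝ :=
  ∑ u ∈ odds k, w k u * eps k ((u : ZMod k) * (n : ZMod k)⁻¹)

/-- `T(n)` cut at `U`. -/
noncomputable def TU (k U n : ℕ) : ℝ :=
  ∑ u ∈ (odds k).filter (fun u => u ≤ U), w k u * eps k ((u : ZMod k) * (n : ZMod k)⁻¹)

/-- `n` is bad: its inverse has a rational approximation of small height. -/
def bad (k H Q n : ℕ) : Prop :=
  ∃ b : ℕ, 1 ≤ b ∧ b ≤ H ∧ ∃ z : ℤ, |z| * (Q : ℤ) ≤ (k : ℤ) ∧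
    (b : ZMod k) = (z : ZMod k) * (n : ZMod k)

/-- The prime block `Q(k,r)`: odd primes `p` with `r p^(2r-1) < k ≤ p^(2r-1/2)`. -/
def blk (k r : ℕ) : Finset ℕ :=
  (Finset.range k).filter (fun p => p.Prime ∧ 3 ≤ p ∧ r * p ^ (2 * r - 1) < k ∧
    k ^ 2 ≤ p ^ (4 * r - 1))

/-- Union of the blocks with even index in `[R^2, R^3]`. -/
def P1 (k R : ℕ) : Finset ℕ :=
  ((Finset.Icc (R ^ 2) (R ^ 3)).filter (fun r => r % 2 = 0)).biUnion (fun r => blk k r)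

/-- Union of the blocks with odd index in `[R^2, R^3]`. -/
def P2 (k R : ℕ) : Finset ℕ :=
  ((Finset.Icc (R ^ 2) (R ^ 3)).filter (fun r => r % 2 = 1)).biUnion (fun r => blk k r)

/-! ## The exact formula -/

/-- TRI: from the floor sum to the trilinear sum. -/
def TARGET_TRI : Prop := ∀ (k : ℕ) [Fact k.Prime], k ≠ 2 →
  (S k : ℝ) = 1 / 2 * ∑ h : ZMod k, ∑ j : ZMod k, eps k h * eps k j * eps k (h * j)

/-- FOT: the finite Fourier transform of `eps` at odd frequencies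
(`t` odd, frequency `t/2 mod k`). -/
def TARGET_FOT : Prop := ∀ (k : ℕ) [Fact k.Prime], k ≠ 2 → ∀ t ∈ odds k,
  ∑ j : ZMod k, eps k j * (ZMod.stdAddChar ((t : ZMod k) * (2 : ZMod k)⁻¹ * j)).im = - w k t

/-- FOU: Fourier expansion of `eps`. -/
def TARGET_FOU : Prop := ∀ (k : ℕ) [Fact k.Prime], k ≠ 2 → ∀ x : ZMod k,
  eps k x = - (2 / k) * ∑ v ∈ odds k,
    w k v * (ZMod.stdAddChar ((v : ZMod k) * (2 : ZMod k)⁻¹ * x)).im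

/-- FORM: the double cotangent formula. -/
def TARGET_FORM : Prop := ∀ (k : ℕ) [Fact k.Prime], k ≠ 2 →
  (S k : ℝ) = 2 / k * ∑ n ∈ odds k, w k n * T k n

/-- FOUR: transfer of exponential sum bounds to sums of `eps`. -/
def TARGET_FOUR : Prop := ∀ (k : ℕ) [Fact k.Prime] (ι : Type) (I : Finset ι) (c : ι → ℝ)
    (x : ι → ZMod k) (E : ℝ), k ≠ 2 →
  (∀ b : ZMod k, b ≠ 0 → ‖∑ i ∈ I, (c i : ℂ) * ZMod.stdAddChar (b * x i)‖ ≤ E) →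
  |∑ i ∈ I, c i * eps k (x i)| ≤ 2 * (1 + Real.log k) * E

/-! ## Weights and Abel summation -/

/-- WGT: facts on the weights. -/
def TARGET_WGT : Prop := ∀ k : ℕ, 3 ≤ k →
  (∀ n, 0 < n → n < k → 0 < w k n) ∧
  (∀ n, 0 < n → n < k → w k n ≤ 2 * k / (Real.pi * n)) ∧
  (∀ n, 0 < n → n < k → |w k n - 2 * k / (Real.pi * n)| ≤ 1) ∧
  (∀ m n, 0 < m → m ≤ n → n < k → w k n ≤ w k m) ∧
  (∀ x : ℕ, 1 ≤ x → ∑ u ∈ (odds k).filter (fun u => u ≤ x), w k u ≤ k * (1 + Real.log x)) ∧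
  (∑ u ∈ odds k, w k u ≤ k * (1 + Real.log k))

/-- ABEL: Abel summation with antitone nonnegative weights. -/
def TARGET_ABEL : Prop := ∀ (m : ℕ) (a s B : ℕ → ℝ),
  0 ≤ a 0 → (∀ i, i < m → 0 ≤ a i) → (∀ i, i + 1 < m → a (i + 1) ≤ a i) →
  (∀ j, 1 ≤ j → j ≤ m → |∑ i ∈ Finset.range j, s i| ≤ B j) → 0 ≤ B 0 →
  |∑ i ∈ Finset.range m, a i * s i| ≤ a 0 * B 0 + ∑ i ∈ Finset.range m, a i * (B (i + 1) - B i)

/-- T1: the first sum. -/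
def TARGET_T1 : Prop := ∀ (k : ℕ) [Fact k.Prime], k ≠ 2 →
  |T k 1 - k * Real.log k / Real.pi| ≤ 2 * k

/-! ## Small denominators -/

/-- PERB: partial sums of the periodic sequence `eps((2i+1)/n)`. -/
def TARGET_PERB : Prop := ∀ (k : ℕ) [Fact k.Prime], k ≠ 2 → ∀ n ∈ odds k, ∀ V : ℕ, 2 * V ≤ k →
  |∑ i ∈ Finset.range V, eps k (((2 * i + 1 : ℕ) : ZMod k) * (n : ZMod k)⁻¹) - V / n| ≤ n

/-- PERT: `T(n)` for every odd `n`, useful for small `n`. -/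
def TARGET_PERT : Prop := ∀ (k : ℕ) [Fact k.Prime], k ≠ 2 → ∀ n ∈ odds k,
  |T k n - T k 1 / n| ≤ 2 * k * (1 + Real.log n)

/-! ## Cutting the sum over u -/

/-- BLK: a block of `q` consecutive terms is balanced (Denjoy-Koksma); `12` is generous. -/
def TARGET_BLK : Prop := ∀ (k : ℕ) [Fact k.Prime], k ≠ 2 → ∀ (θ c : ZMod k) (q : ℕ) (a : ℤ),
  0 < q → Int.gcd a q = 1 → |(q : ℤ) * (θ.val : ℤ) - a * k| * q ≤ k →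
  |∑ i ∈ Finset.range q, eps k (c + 2 * (i : ZMod k) * θ)| ≤ 12

/-- DIR: Dirichlet approximation. -/
def TARGET_DIR : Prop := ∀ (k : ℕ) [Fact k.Prime] (θ : ZMod k) (Q : ℕ), 1 ≤ Q →
  ∃ (q : ℕ) (a : ℤ), 1 ≤ q ∧ q ≤ Q ∧ Int.gcd a q = 1 ∧
    |(q : ℤ) * (θ.val : ℤ) - a * k| * (Q + 1) ≤ k

/-- TAIL: the tail of the sum over `u`. -/
def TARGET_TAIL : Prop := ∀ (k : ℕ) [Fact k.Prime], k ≠ 2 → ∀ (θ : ZMod k) (q U : ℕ) (a : ℤ),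
  0 < q → Int.gcd a q = 1 → |(q : ℤ) * (θ.val : ℤ) - a * k| * q ≤ k →
  |∑ u ∈ (odds k).filter (fun u => U < u), w k u * eps k ((u : ZMod k) * θ)| ≤
    12 * k * (1 + Real.log k) / q + (q : ℝ) * k / (U + 1)

/-- GOODT: for `n` not bad the sum over `u` may be cut at `U`. -/
def TARGET_GOODT : Prop := ∀ (k : ℕ) [Fact k.Prime], k ≠ 2 → ∀ (H Q U : ℕ), 1 ≤ H → 1 ≤ Q →
  ∀ n ∈ odds k, ¬ bad k H Q n →
  |T k n - TU k U n| ≤ 12 * k * (1 + Real.log k) / H + (Q : ℝ) * k / (U + 1)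

/-- BADW: bad numbers with a large prime factor have small logarithmic weight. -/
def TARGET_BADW : Prop := ∀ (k H Q y : ℕ), k.Prime → 3 ≤ k → 1 ≤ H → H < k → 1 ≤ Q → 1 ≤ y →
  ∀ s : Finset ℕ, (∀ n ∈ s, n < k ∧ H < n ∧ bad k H Q n ∧ ∃ p, p.Prime ∧ y < p ∧ p ∣ n) →
  ∑ n ∈ s, (1 : ℝ) / n ≤ 100 * H * (1 + Real.log k) ^ 3 * (1 / y + 1 / Q)

/-- SMO: smooth numbers have small logarithmic weight (Rankin). -/
def TARGET_SMO : Prop := ∀ (y N : ℕ), 21 ≤ y → 1 ≤ N →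
  ∀ s : Finset ℕ, (∀ n ∈ s, N < n ∧ ∀ p, p.Prime → p ∣ n → p ≤ y) →
  ∑ n ∈ s, (1 : ℝ) / n ≤ (y : ℝ) ^ 8 * Real.exp (-(Real.log N / Real.log y))

/-- MIDR: combination of GOODT, BADW, SMO. -/
def TARGET_MIDR : Prop := ∀ (k : ℕ) [Fact k.Prime], k ≠ 2 → ∀ (H Q U y N : ℕ),
  1 ≤ H → H < k → 1 ≤ Q → 21 ≤ y → H ≤ N →
  |∑ n ∈ (odds k).filter (fun n => N < n), w k n * (T k n - TU k U n)| ≤
    k * (1 + Real.log k) * (12 * k * (1 + Real.log k) / H + (Q : ℝ) * k / (U + 1))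
    + (k : ℝ) ^ 2 * (1 + Real.log k) *
      (100 * H * (1 + Real.log k) ^ 3 * (1 / y + 1 / Q)
        + (y : ℝ) ^ 8 * Real.exp (-(Real.log N / Real.log y)))

/-! ## Karatsuba's method -/

/-- DIAG: sums of reciprocals of primes modulo `k`. -/
def TARGET_DIAG : Prop := ∀ (k r : ℕ) (A : Finset ℕ), k.Prime → 1 ≤ r →
  (∀ p ∈ A, p.Prime ∧ r < p ∧ r * p ^ (2 * r - 1) < k) →
  ∀ x y : Fin r → ℕ, (∀ i, x i ∈ A) → (∀ i, y i ∈ A) →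
  ∑ i, ((x i : ZMod k))⁻¹ = ∑ i, ((y i : ZMod k))⁻¹ →
  ∃ σ : Equiv.Perm (Fin r), ∀ i, y i = x (σ i)

/-- MOM: the moment bound. -/
def TARGET_MOM : Prop := ∀ (k r : ℕ) [Fact k.Prime] (A : Finset ℕ), 1 ≤ r →
  (∀ p ∈ A, p.Prime ∧ r < p ∧ r * p ^ (2 * r - 1) < k) →
  ∑ a : ZMod k, ‖∑ p ∈ A, ((1 / p : ℝ) : ℂ) * ZMod.stdAddChar (a * (p : ZMod k)⁻¹)‖ ^ (2 * r)
    ≤ k * (r.factorial : ℝ) * (∑ p ∈ A, (1 : ℝ) / p ^ 2) ^ r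

/-- KAR: the bilinear inequality (Hölder twice). -/
def TARGET_KAR : Prop := ∀ (k s q : ℕ) [Fact k.Prime] (A B : Finset ℕ) (α β : ℕ → ℝ)
    (ξ η : ℕ → ZMod k) (b : ZMod k), 1 ≤ s → 1 ≤ q → b ≠ 0 →
  (∀ i ∈ A, 0 ≤ α i) → (∀ j ∈ B, 0 ≤ β j) →
  ‖∑ i ∈ A, ∑ j ∈ B, ((α i * β j : ℝ) : ℂ) * ZMod.stdAddChar (b * ξ i * η j)‖ ^ (2 * s * (2 * q)) ≤
    (∑ j ∈ B, β j) ^ ((2 * s - 1) * (2 * q)) * (∑ i ∈ A, α i) ^ (2 * s * (2 * q - 2)) *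
    ((∑ a : ZMod k, ‖∑ i ∈ A, (α i : ℂ) * ZMod.stdAddChar (a * ξ i)‖ ^ (4 * s)) / k) *
    (∑ a : ZMod k, ‖∑ j ∈ B, (β j : ℂ) * ZMod.stdAddChar (a * η j)‖ ^ (2 * q))

/-- QB: elementary facts on the blocks. -/
def TARGET_QB : Prop := ∀ (k r : ℕ), k.Prime → 4 ≤ r → (r : ℝ) ^ 3 ≤ Real.log k →
  (∀ p ∈ blk k r, r < p ∧ p ^ 2 ≤ k ∧ Real.log p ≤ Real.log k / (2 * r - 1)) ∧
  (∑ p ∈ blk k r, (1 : ℝ) / p ≤ 1 + Real.log k) ∧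
  ((∑ p ∈ blk k r, (1 : ℝ) / p ^ 2) ^ r ≤
    2 ^ r * Real.exp (-(Real.log k / 2 + Real.log k / (8 * r))))

/-- KARB: the bilinear bound for two blocks. -/
def TARGET_KARB : Prop := ∀ (k R r₁ r₂ : ℕ) [Fact k.Prime] (b : ZMod k), 2 ≤ R →
  (R : ℝ) ^ 10 ≤ Real.log k → R ^ 2 ≤ r₁ → r₁ ≤ R ^ 3 → r₁ % 2 = 0 → R ^ 2 ≤ r₂ → r₂ ≤ R ^ 3 →
  b ≠ 0 →
  ‖∑ p ∈ blk k r₁, ∑ q ∈ blk k r₂,
      ((1 / (p * q) : ℝ) : ℂ) * ZMod.stdAddChar (b * ((p : ZMod k) * (q : ZMod k))⁻¹)‖ ≤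
    4 * (1 + Real.log k) ^ 2 * Real.exp (-(Real.log k / (8 * (R : ℝ) ^ 9)))

/-- KARS: the sum of `eps` over `P1 × P2`. -/
def TARGET_KARS : Prop := ∀ (k R : ℕ) [Fact k.Prime] (t : ZMod k), k ≠ 2 → 2 ≤ R →
  (R : ℝ) ^ 10 ≤ Real.log k → t ≠ 0 →
  |∑ p ∈ P1 k R, ∑ q ∈ P2 k R, 1 / ((p : ℝ) * q) * eps k (t * ((p : ZMod k) * (q : ZMod k))⁻¹)| ≤
    8 * (R : ℝ) ^ 6 * (1 + Real.log k) ^ 3 * Real.exp (-(Real.log k / (8 * (R : ℝ) ^ 9)))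

/-! ## Combinatorial decomposition and primes -/

/-- RAM: Ramaré's identity for two sets of primes. -/
def TARGET_RAM : Prop := ∀ (k z N : ℕ) (A B : Finset ℕ), 3 ≤ k → 2 ≤ z →
  (∀ p ∈ A, p.Prime ∧ 3 ≤ p ∧ p ≤ z) → (∀ p ∈ B, p.Prime ∧ 3 ≤ p ∧ p ≤ z) → Disjoint A B →
  ∃ a : ℕ → ℝ, (∀ m, 0 ≤ a m ∧ a m ≤ 1) ∧ ∀ f : ℕ → ℝ, (∀ n, |f n| ≤ 1) →
   |∑ n ∈ (odds k).filter (fun n => N < n), f n / n
      - ∑ m ∈ (odds k).filter (fun m => N < m ∧ m * z ^ 2 < k),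
          a m / m * ∑ p ∈ A, ∑ q ∈ B, 1 / ((p : ℝ) * q) * f (p * q * m)|
   ≤ ∑ n ∈ (odds k).filter (fun n => ∀ p ∈ A, ¬ p ∣ n), (1 : ℝ) / n
     + ∑ n ∈ (odds k).filter (fun n => ∀ p ∈ B, ¬ p ∣ n), (1 : ℝ) / n
     + (1 + Real.log k) * ∑ p ∈ A ∪ B, (1 : ℝ) / p ^ 2
     + 8 * (1 + Real.log z)

/-- EXC: numbers without prime factor in a rich set of primes. -/
def TARGET_EXC : Prop := ∀ (k : ℕ) (P : Finset ℕ), 3 ≤ k → (∀ p ∈ P, p.Prime ∧ p ^ 2 ≤ k) →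
  2 ≤ ∑ p ∈ P, (1 : ℝ) / p →
  ∑ n ∈ (odds k).filter (fun n => ∀ p ∈ P, ¬ p ∣ n), (1 : ℝ) / n ≤
    8 * (1 + Real.log k) / (∑ p ∈ P, (1 : ℝ) / p) ^ 2

/-- CHE: Chebyshev lower bound for one block. -/
def TARGET_CHE : Prop := ∃ R₀ : ℕ, ∀ (k R r : ℕ), k.Prime → R₀ ≤ R →
  (R : ℝ) ^ 10 ≤ Real.log k → R ^ 2 ≤ r → r ≤ R ^ 3 →
  1 / (100 * (r : ℝ)) ≤ ∑ p ∈ blk k r, (1 : ℝ) / p

/-- LAM: lower bounds for the two prime sets, and their elementary properties. -/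
def TARGET_LAM : Prop := ∃ (R₀ : ℕ) (c : ℝ), 0 < c ∧ ∀ (k R : ℕ), k.Prime → R₀ ≤ R →
  (R : ℝ) ^ 10 ≤ Real.log k →
  (c * Real.log R ≤ ∑ p ∈ P1 k R, (1 : ℝ) / p) ∧ (c * Real.log R ≤ ∑ p ∈ P2 k R, (1 : ℝ) / p) ∧
  Disjoint (P1 k R) (P2 k R) ∧
  (∀ p ∈ P1 k R ∪ P2 k R, p.Prime ∧ 3 ≤ p ∧ p ^ 2 ≤ k ∧ Real.log p ≤ Real.log k / (R : ℝ) ^ 2) ∧
  (∑ p ∈ P1 k R ∪ P2 k R, (1 : ℝ) / p ^ 2 ≤ 1 / (R : ℝ))

/-- FU: the sum over `n` for fixed `u`. -/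
def TARGET_FU : Prop := ∃ (C : ℝ) (K : ℕ), 0 < C ∧ ∀ (k : ℕ) [Fact k.Prime], K ≤ k →
  ∀ (N u : ℕ), u ∈ odds k →
  |∑ n ∈ (odds k).filter (fun n => N < n), w k n * eps k ((u : ZMod k) * (n : ZMod k)⁻¹)| ≤
    C * k * Real.log k / (Real.log (Real.log k)) ^ 2

/-! ## Assembly -/

/-- SMALL: the part `n ≤ N`. -/
def TARGET_SMALL : Prop := ∃ C : ℝ, 0 < C ∧ ∀ (k : ℕ) [Fact k.Prime], k ≠ 2 →
  ∀ N : ℕ, 1 ≤ N → N < k →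
  |∑ n ∈ (odds k).filter (fun n => n ≤ N), w k n * T k n - (k : ℝ) ^ 2 * Real.log k / 4| ≤
    C * (k : ℝ) ^ 2 * (Real.log k / N + (1 + Real.log N) ^ 2)

/-- LARGE: the part `N < n` with `log N` about `(log k)^(1/4)`. -/
def TARGET_LARGE : Prop := ∃ (C : ℝ) (K : ℕ), 0 < C ∧ ∀ (k : ℕ) [Fact k.Prime], K ≤ k →
  |∑ n ∈ (odds k).filter (fun n => 2 ^ (Nat.sqrt (Nat.sqrt (Nat.ceil (Real.log k)))) < n),
      w k n * T k n| ≤ C * (k : ℝ) ^ 2 * Real.log k / Real.log (Real.log k)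

/-- FIN: the asymptotic formula. -/
def TARGET_FIN : Prop := ∀ ε : ℝ, 0 < ε → ∃ K : ℕ, ∀ k : ℕ, k.Prime → K ≤ k →
  |(S k : ℝ) - k * Real.log k / 2| ≤ ε * (k * Real.log k)

end SK
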